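import Pool.Agent.H98.TE.SWP
import Pool.Agent.H97.FB.Defs2

/-! # [H4 TE ING] The members of the family and their points at infinity

`vl_fm`: `vl G x y = MvPolynomial.eval₂ (Int.castRingHom S) ![x, y] G` is a ring hom in `G`; `ev3` commutes with ring homs (`Pool.Agent.H37.TE.ev3_hom`).
`ing`: `K` a field of characteristic `0`, `x, y ∈ K((z))`, `vl (Fm F a) x y = ev3 a x y F = 0`, i.e. (`Pool.Agent.H98.TE.ev3_sum` or `H37/TE/Cor.lean`) `∑_(i + l ≤ n) p_il x^i y^l = 0`, `p_il = ((F.coeff l).coeff i)(a)`. If `x` and `y` are both power series: left alternative. Otherwise let `-d`, `d ≥ 1`, be the minimum of the orders (`HahnSeries.order`) of the nonzero ones among `x, y`: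
`A = z^d x`, `B = z^d y` (`z = HahnSeries.single 1 1`) are power series (`HahnSeries.ofPowerSeries` of some `A0, B0`; for a Laurent series with vanishing coefficients in negative degrees see e.g. `Pool/Agent/H34/AC/Inf1.lean`, `Pool/Agent/H8/RZ/RES.lean`, `Pool/Agent/H97/NW/INO.lean`), with constant coefficients `(a0, b0) ≠ (0, 0)`.
Multiply by `z^(n d)`: `∑ p_il z^((n-i-l) d) A0^i B0^l = 0` in `K[[z]]` (`ofPowerSeries` injective); constant coefficient: `∑_(i+l=n) p_il a0^i b0^l = 0`. If `a0 = 0` this is `p_0n b0^n = 0`, `p_0n = ((F.coeff n).coeff 0)(a) ≠ 0`, so `b0 = 0`, contradiction. So `θ = b0/a0` satisfies `∑_l p_(n-l,l) θ^l = 0`, which is `aeval θ (fa (topf n F) a) = 0` (`tpf_coeff`). -/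

namespace Pool.Agent.H4.TE

open Finset Polynomial Pool.Agent.H37.TE Pool.Agent.H98.TE Pool.Agent.H34.AC Pool.Agent.H97.FB

/-- the member `a` of the family as a polynomial in two variables -/
noncomputable def Fm (F : ℤ[X][X][X]) (a : ℕ) : MvPolynomial (Fin 2) ℤ :=
  ev3 (MvPolynomial.C (a : ℤ)) (MvPolynomial.X 0) (MvPolynomial.X 1) F

theorem vl_fm {S : Type*} [CommRing S] (F : ℤ[X][X][X]) (a : ℕ) (x y : S) :
    vl (Fm F a) x y = ev3 (a : S) x y F := by
  have h1 : vl (Fm F a) x y = MvPolynomial.eval₂Hom (Int.castRingHom S) ![x, y] (Fm F a) := rfl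
  rw [h1, Fm, ev3_hom]
  simp

theorem laurent_mul_mem {K : Type} [Field K] (x : LaurentSeries K) : ∃ d : ℕ,
    HahnSeries.ofPowerSeries ℤ K (PowerSeries.X ^ d) * x ∈ (HahnSeries.ofPowerSeries ℤ K).range := by
  refine ⟨(-x.order).toNat, ?_⟩
  have h1 : ((-x.order).toNat : ℤ) + x.order =
      ((((-x.order).toNat : ℤ) + x.order).toNat : ℕ) := by
    omega
  have h2 := LaurentSeries.single_order_mul_powerSeriesPart x
  have h3 : HahnSeries.ofPowerSeries ℤ K (PowerSeries.X ^ (-x.order).toNat) * x =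
      HahnSeries.ofPowerSeries ℤ K (PowerSeries.X ^ (((-x.order).toNat : ℤ) + x.order).toNat *
        x.powerSeriesPart) := by
    calc _ = HahnSeries.ofPowerSeries ℤ K (PowerSeries.X ^ (-x.order).toNat) *
          (HahnSeries.single x.order 1 * HahnSeries.ofPowerSeries ℤ K x.powerSeriesPart) := by
          rw [h2]
      _ = _ := by
          rw [HahnSeries.ofPowerSeries_X_pow, ← mul_assoc, HahnSeries.single_mul_single, mul_one,
            map_mul, HahnSeries.ofPowerSeries_X_pow, ← h1]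
  rw [h3]
  exact ⟨_, rfl⟩

theorem ing {n m a : ℕ} {F : ℤ[X][X][X]} (H : DegF n m F) (hn : 1 ≤ n)
    (ha : ((F.coeff n).coeff 0).eval (a : ℤ) ≠ 0) : INg (fa (topf n F) a) (Fm F a) := by
  intro K _ _ _ x y h
  by_cases hxy : x ∈ (HahnSeries.ofPowerSeries ℤ K).range ∧
      y ∈ (HahnSeries.ofPowerSeries ℤ K).range
  · exact Or.inl hxy
  right
  obtain ⟨ι, hι⟩ : ∃ ι : PowerSeries K →+* LaurentSeries K, ι = HahnSeries.ofPowerSeries ℤ K :=
    ⟨_, rfl⟩
  have hιinj : Function.Injective ι := by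
    rw [hι]
    exact HahnSeries.ofPowerSeries_injective
  rw [← hι] at hxy
  obtain ⟨z, hz⟩ : ∃ z : PowerSeries K, z = PowerSeries.X := ⟨_, rfl⟩
  have hz0 : z ≠ 0 := by rw [hz]; exact PowerSeries.X_ne_zero
  have hzc : PowerSeries.constantCoeff z = 0 := by rw [hz, PowerSeries.constantCoeff_X]
  have hex : ∃ d : ℕ, ι (z ^ d) * x ∈ ι.range ∧ ι (z ^ d) * y ∈ ι.range := by
    obtain ⟨d1, h1⟩ := laurent_mul_mem x
    obtain ⟨d2, h2⟩ := laurent_mul_mem y
    rw [← hι, ← hz] at h1 h2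
    refine ⟨d1 + d2, ?_, ?_⟩
    · have h3 : ι (z ^ (d1 + d2)) * x = ι (z ^ d2) * (ι (z ^ d1) * x) := by
        rw [← mul_assoc, ← map_mul, ← pow_add, add_comm d2 d1]
      rw [h3]
      exact mul_mem ⟨_, rfl⟩ h1
    · have h3 : ι (z ^ (d1 + d2)) * y = ι (z ^ d1) * (ι (z ^ d2) * y) := by
        rw [← mul_assoc, ← map_mul, ← pow_add]
      rw [h3]
      exact mul_mem ⟨_, rfl⟩ h2
  classical
  obtain ⟨d, hd, hdmin⟩ : ∃ d : ℕ, (ι (z ^ d) * x ∈ ι.range ∧ ι (z ^ d) * y ∈ ι.range) ∧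
      ∀ d' < d, ¬ (ι (z ^ d') * x ∈ ι.range ∧ ι (z ^ d') * y ∈ ι.range) :=
    ⟨Nat.find hex, Nat.find_spec hex, fun d' hd' => Nat.find_min hex hd'⟩
  have hd1 : 1 ≤ d := by
    rcases Nat.eq_zero_or_pos d with h0 | h0
    · exfalso
      subst h0
      rw [pow_zero, map_one, one_mul, one_mul] at hd
      exact hxy hd
    · exact h0
  obtain ⟨⟨A, hA⟩, ⟨B, hB⟩⟩ := hd
  obtain ⟨a0, ha0⟩ : ∃ a0, a0 = PowerSeries.constantCoeff A := ⟨_, rfl⟩
  obtain ⟨b0, hb0⟩ : ∃ b0, b0 = PowerSeries.constantCoeff B := ⟨_, rfl⟩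
  have hιz : ι z ≠ 0 := by
    intro h0
    exact hz0 (hιinj (h0.trans (map_zero _).symm))
  have hne : ¬ (a0 = 0 ∧ b0 = 0) := by
    rintro ⟨h1, h2⟩
    rw [ha0] at h1
    rw [hb0] at h2
    obtain ⟨A', hA'⟩ := PowerSeries.X_dvd_iff.2 h1
    obtain ⟨B', hB'⟩ := PowerSeries.X_dvd_iff.2 h2
    rw [← hz] at hA' hB'
    refine hdmin (d - 1) (by omega) ⟨⟨A', ?_⟩, ⟨B', ?_⟩⟩
    · apply mul_left_cancel₀ hιz
      rw [← map_mul, ← hA', hA, ← mul_assoc, ← map_mul, ← pow_succ']
      congr 3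
      omega
    · apply mul_left_cancel₀ hιz
      rw [← map_mul, ← hB', hB, ← mul_assoc, ← map_mul, ← pow_succ']
      congr 3
      omega
  obtain ⟨p, hp⟩ : ∃ p : ℕ → ℕ → ℤ, p = fun i b => ((F.coeff b).coeff i).eval (a : ℤ) := ⟨_, rfl⟩
  have hsum : ∀ {S : Type} [CommRing S] (u v : S), ev3 (a : S) u v F =
      ∑ b ∈ range (n + 1), ∑ i ∈ range (n + 1 - b), (p i b : S) * (u ^ i * v ^ b) := by
    intro S _ u v
    rw [Pool.Agent.H98.TE.ev3_sum H]
    refine sum_congr rfl fun b _ => sum_congr rfl fun i _ => ?_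
    rw [hp]
    simp only
    rw [eval_eq_sum_range' (lt_of_le_of_lt (H.deg i b) (Nat.lt_succ_self m)), Int.cast_sum,
      Finset.sum_mul]
    refine sum_congr rfl fun j _ => ?_
    rw [cf3]
    push_cast
    ring
  have h1 : ∑ b ∈ range (n + 1), ∑ i ∈ range (n + 1 - b),
      (p i b : PowerSeries K) * (z ^ ((n - i - b) * d) * (A ^ i * B ^ b)) = 0 := by
    apply hιinj
    rw [map_zero, map_sum]
    have h2 := h
    rw [vl_fm, hsum] at h2
    have h3 : ι z ^ (n * d) * (∑ b ∈ range (n + 1), ∑ i ∈ range (n + 1 - b),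
        (p i b : LaurentSeries K) * (x ^ i * y ^ b)) = 0 := by rw [h2, mul_zero]
    rw [← h3, Finset.mul_sum]
    refine sum_congr rfl fun b hb => ?_
    rw [map_sum, Finset.mul_sum]
    refine sum_congr rfl fun i hi => ?_
    rw [mem_range] at hb hi
    rw [map_mul, map_mul, map_mul, map_pow, map_pow, map_pow, hA, hB, map_intCast, map_pow]
    have h4 : n * d = (n - i - b) * d + i * d + b * d := by
      rw [← add_mul, ← add_mul]
      congr 1
      omega
    rw [h4, pow_add, pow_add, mul_pow, mul_pow, ← pow_mul, ← pow_mul, mul_comm d i, mul_comm d b]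
    ring
  have h5 : ∑ b ∈ range (n + 1), (p (n - b) b : K) * (a0 ^ (n - b) * b0 ^ b) = 0 := by
    have h6 := congrArg PowerSeries.constantCoeff h1
    rw [map_zero, map_sum] at h6
    rw [← h6]
    refine sum_congr rfl fun b hb => ?_
    rw [mem_range] at hb
    rw [map_sum, Finset.sum_eq_single (n - b)]
    · have h7 : n - (n - b) - b = 0 := by omega
      rw [h7, zero_mul, pow_zero, one_mul, map_mul, map_mul, map_pow, map_pow, map_intCast,
        ← ha0, ← hb0]
    · intro i hi hib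
      rw [mem_range] at hi
      have h7 : (n - i - b) * d ≠ 0 := Nat.mul_ne_zero (by omega) (by omega)
      rw [map_mul, map_mul, map_pow, hzc, zero_pow h7, zero_mul, mul_zero]
    · intro h7
      exact absurd (mem_range.2 (by omega)) h7
  have ha00 : a0 ≠ 0 := by
    intro h0
    rw [h0, Finset.sum_eq_single n] at h5
    · rw [Nat.sub_self, pow_zero, one_mul] at h5
      rcases mul_eq_zero.1 h5 with h6 | h6
      · rw [hp] at h6
        exact ha (by exact_mod_cast h6)
      · exact hne ⟨h0, pow_eq_zero_iff (by omega) |>.1 h6⟩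
    · intro b hb hbn
      rw [mem_range] at hb
      rw [zero_pow (by omega), zero_mul, mul_zero]
    · intro h6
      exact absurd (mem_range.2 (Nat.lt_succ_self n)) h6
  refine ⟨b0 / a0, ?_⟩
  have h8 : (fa (topf n F) a).natDegree < n + 1 := by
    refine Nat.lt_succ_of_le ?_
    rw [fa]
    refine natDegree_map_le.trans ?_
    rw [natDegree_le_iff_coeff_eq_zero]
    intro b hb
    rw [tpf_coeff, if_neg (by omega)]
  rw [aeval_eq_sum_range' h8]
  have h9 : a0 ^ n ≠ 0 := pow_ne_zero _ ha00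
  apply mul_left_cancel₀ h9
  rw [mul_zero, ← h5, Finset.mul_sum]
  refine sum_congr rfl fun b hb => ?_
  rw [mem_range] at hb
  rw [fa, coeff_map, tpf_coeff, if_pos (by omega), hp]
  simp only [coe_evalRingHom, zsmul_eq_mul]
  have h10 : a0 ^ n = a0 ^ (n - b) * a0 ^ b := by
    rw [← pow_add]
    congr 1
    omega
  rw [h10, div_pow]
  field_simp

end Pool.Agent.H4.TE
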