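import Pool.Agent.H4.TE.ING

/-! # [H4 TE IRF] The members of the family are irreducible

`Ψ : MvPolynomial (Fin 2) ℚ ≃ ℚ[X][X]`, `X 0 ↦ C X`, `X 1 ↦ X`: the ring hom `aeval ![C X, X]` has the inverse `eval₂RingHom (eval₂RingHom C (X 0)) (X 1)` (`RingEquiv.ofHomInv`-like, check on generators: `MvPolynomial.ringHom_ext`, `Polynomial.ringHom_ext'`). `P = Ψ (map (Int.castRingHom ℚ) (Fm F a)) = ev3 (C (C a)) (C X) X F` over `ℚ[X][X]` (`ev3_hom`); `(P.coeff b).coeff i = ((F.coeff b).coeff i)(a)`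
(by `ev3_sum`, or: `P = F.map (mapRingHom ((Int.castRingHom ℚ).comp (evalRingHom a)))`, equality of two ring homs applied to `F`). `tpf n P = (fa (topf n F) a).map (Int.castRingHom ℚ)` (`tpf_coeff`, `fa f a = f.map (evalRingHom a)`), so `Pool.Agent.H37.TE.irr_of_tpf` gives `Irreducible P`; `MulEquiv.irreducible_iff` for `Ψ`.
`fm_deg`: `Fm F a = ∑_(i + l ≤ n) C (p_il) X0^i X1^l` (`ev3_sum`): `MvPolynomial.totalDegree_finsetSum_le`, `totalDegree_mul`, `totalDegree_X_pow`. `fm_coeff`: its coefficient at `e = (i, l)` is `p_il(a) = ∑_(j ≤ m) cf3 F j i l a^j` or `0`: `≤ B a^m`, `B = ∑_(j ≤ m) ∑_(i, l ≤ n) |cf3 F j i l|`. -/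

namespace Pool.Agent.H4.TE

open Finset Polynomial Pool.Agent.H37.TE Pool.Agent.H98.TE Pool.Agent.H34.AC Pool.Agent.H97.FB

variable {n m : ℕ} {F : ℤ[X][X][X]}

private noncomputable def psi : MvPolynomial (Fin 2) ℚ →+* ℚ[X][X] :=
  MvPolynomial.eval₂Hom ((C : ℚ[X] →+* ℚ[X][X]).comp (C : ℚ →+* ℚ[X])) ![C X, X]

private noncomputable def phi : ℚ[X][X] →+* MvPolynomial (Fin 2) ℚ :=
  eval₂RingHom (eval₂RingHom MvPolynomial.C (MvPolynomial.X 0)) (MvPolynomial.X 1)

private theorem phi_psi : phi.comp psi = RingHom.id _ := by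
  apply MvPolynomial.ringHom_ext
  · intro r
    simp [phi, psi]
  · intro i
    fin_cases i <;> simp [phi, psi]

private theorem psi_phi : psi.comp phi = RingHom.id _ := by
  apply Polynomial.ringHom_ext'
  · apply Polynomial.ringHom_ext'
    · ext r
      simp [phi, psi]
    · simp [phi, psi]
  · simp [phi, psi]

private theorem ev3_map (F : ℤ[X][X][X]) (a : ℕ) :
    ev3 ((a : ℤ) : ℚ[X][X]) (C X) X F =
      F.map (mapRingHom ((Int.castRingHom ℚ).comp (evalRingHom (a : ℤ)))) := by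
  have h : eval₂RingHom (eval₂RingHom (eval₂RingHom (Int.castRingHom ℚ[X][X]) ((a : ℤ) : ℚ[X][X])) (C X)) X =
      (mapRingHom (mapRingHom ((Int.castRingHom ℚ).comp (evalRingHom (a : ℤ)))) :
        ℤ[X][X][X] →+* ℚ[X][X]) := by
    apply Polynomial.ringHom_ext'
    · apply Polynomial.ringHom_ext'
      · apply Polynomial.ringHom_ext'
        · exact RingHom.ext_int _ _
        · simp
      · simp
    · simp
  exact congrArg (fun g : ℤ[X][X][X] →+* ℚ[X][X] => g F) h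

theorem fm_irr {a : ℕ} (H : DegF n m F) (hn : 1 ≤ n) (hd : (fa (topf n F) a).natDegree = n)
    (hirr : Irreducible ((fa (topf n F) a).map (Int.castRingHom ℚ))) :
    Irreducible (MvPolynomial.map (Int.castRingHom ℚ) (Fm F a)) := by
  let e : MvPolynomial (Fin 2) ℚ ≃+* ℚ[X][X] := RingEquiv.ofRingHom psi phi psi_phi phi_psi
  rw [← MulEquiv.irreducible_iff e]
  have h1 : e (MvPolynomial.map (Int.castRingHom ℚ) (Fm F a)) =
      F.map (mapRingHom ((Int.castRingHom ℚ).comp (evalRingHom (a : ℤ)))) := by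
    rw [← ev3_map]
    have h2 := ev3_hom (psi.comp (MvPolynomial.map (Int.castRingHom ℚ)))
      (MvPolynomial.C (a : ℤ)) (MvPolynomial.X 0 : MvPolynomial (Fin 2) ℤ) (MvPolynomial.X 1) F
    have h3 : e (MvPolynomial.map (Int.castRingHom ℚ) (Fm F a)) =
      (psi.comp (MvPolynomial.map (Int.castRingHom ℚ))) (ev3 (MvPolynomial.C (a : ℤ))
        (MvPolynomial.X 0) (MvPolynomial.X 1) F) := rfl
    rw [h3, h2]
    congr 1
    · simp [psi]
    · simp [psi]
    · simp [psi]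
  rw [h1]
  obtain ⟨P, hP⟩ : ∃ P, P = F.map (mapRingHom ((Int.castRingHom ℚ).comp (evalRingHom (a : ℤ)))) :=
    ⟨_, rfl⟩
  rw [← hP]
  have hc : ∀ b i, (P.coeff b).coeff i = ((((F.coeff b).coeff i).eval (a : ℤ) : ℤ) : ℚ) := by
    intro b i
    rw [hP, coeff_map, coe_mapRingHom, coeff_map]
    rfl
  have ht : tpf n P = (fa (topf n F) a).map (Int.castRingHom ℚ) := by
    ext b
    rw [tpf_coeff, coeff_map, fa, coeff_map, tpf_coeff, hc]
    split_ifs
    · rfl
    · simp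
  refine irr_of_tpf hn P ?_ ?_ ?_
  · intro i b hib
    rw [hc, H.tot i b hib]
    simp
  · rw [ht]
    exact hirr
  · rw [ht, natDegree_map_eq_of_injective (RingHom.injective_int _), hd]

private theorem fm_sum (H : DegF n m F) (a : ℕ) :
    Fm F a = ∑ b ∈ range (n + 1), ∑ i ∈ range (n + 1 - b), ∑ j ∈ range (m + 1),
      MvPolynomial.monomial (Finsupp.single 0 i + Finsupp.single 1 b) (cf3 F j i b * (a : ℤ) ^ j) := by
  unfold Fm
  rw [Pool.Agent.H98.TE.ev3_sum H]
  refine sum_congr rfl fun b _ => sum_congr rfl fun i _ => sum_congr rfl fun j _ => ?_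
  have h1 : ((cf3 F j i b : ℤ) : MvPolynomial (Fin 2) ℤ) = MvPolynomial.C (cf3 F j i b) := rfl
  rw [MvPolynomial.X_pow_eq_monomial, MvPolynomial.X_pow_eq_monomial, ← map_pow, mul_assoc,
    MvPolynomial.monomial_mul, MvPolynomial.C_mul_monomial, h1, MvPolynomial.C_mul_monomial,
    mul_one, mul_one]

theorem fm_deg (H : DegF n m F) (a : ℕ) : (Fm F a).totalDegree ≤ n := by
  rw [fm_sum H]
  refine MvPolynomial.totalDegree_finsetSum_le fun b hb => ?_
  refine MvPolynomial.totalDegree_finsetSum_le fun i hi => ?_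
  refine MvPolynomial.totalDegree_finsetSum_le fun j _ => ?_
  rw [mem_range] at hb hi
  refine (MvPolynomial.totalDegree_monomial_le _ _).trans ?_
  rw [Finsupp.sum_add_index' (fun _ => rfl) (fun _ _ _ => rfl), Finsupp.sum_single_index rfl,
    Finsupp.sum_single_index rfl]
  simp only [id]
  omega

theorem fm_coeff (H : DegF n m F) : ∃ B : ℕ, ∀ a : ℕ, 1 ≤ a → ∀ e,
    |(Fm F a).coeff e| ≤ ((B * a ^ m : ℕ) : ℤ) := by
  refine ⟨∑ b ∈ range (n + 1), ∑ i ∈ range (n + 1 - b), ∑ j ∈ range (m + 1),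
    (cf3 F j i b).natAbs, fun a ha e => ?_⟩
  rw [fm_sum H, MvPolynomial.coeff_sum]
  push_cast
  rw [sum_mul]
  refine (abs_sum_le_sum_abs _ _).trans (sum_le_sum fun b _ => ?_)
  rw [MvPolynomial.coeff_sum, sum_mul]
  refine (abs_sum_le_sum_abs _ _).trans (sum_le_sum fun i _ => ?_)
  rw [MvPolynomial.coeff_sum, sum_mul]
  refine (abs_sum_le_sum_abs _ _).trans (sum_le_sum fun j hj => ?_)
  rw [mem_range] at hj
  rw [MvPolynomial.coeff_monomial]
  have h1 : (1 : ℤ) ≤ a := by exact_mod_cast ha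
  have h2 : (a : ℤ) ^ j ≤ (a : ℤ) ^ m := pow_le_pow_right₀ h1 (by omega)
  split_ifs
  · rw [abs_mul, abs_pow, abs_of_nonneg (by omega : (0 : ℤ) ≤ a)]
    exact mul_le_mul_of_nonneg_left h2 (abs_nonneg _)
  · rw [abs_zero]
    positivity

end Pool.Agent.H4.TE
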