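import Pool.Agent.H4.TE.BRG
import Pool.Agent.H4.EX.TPH
import Pool.Agent.H98.TE.SWP

/-! # [H4 TE ADM] The hypotheses of the theorem imply `Adm`

`topC n m F`, over `ℂ[t]`, is `hm n g` with `g = (topf n (F3 m F)).map (mapRingHom (Int.castRingHom ℂ))` (`top_cf`, `coeff_f3`, `tpf_coeff`; sums interchanged, `map_sum`). `form_irr` (`n ≥ 5`): `g` is irreducible of degree `n`, so `(topf ..).coeff n = ((F3 m F).coeff n).coeff 0 ≠ 0` (`lead`). `f_m`, over `ℚ`, is `hm n g'`, `g' = ∑_(l ≤ n) C (coefficient (n-l, l) of F_m) X^l ∈ ℚ[X]`, and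
`topm n m (F3 m F) = g'.map (algebraMap ℚ ℝ)` (`coeff_f3`: the coefficient of `t^m`). `form_sqf`: `Squarefree g'`, so `g' ≠ 0` and `Separable g'` (`PerfectField.separable_iff_squarefree`), `Separable` over `ℝ`: no common zero of `g'` and its derivative (evaluate the Bezout identity).
`m ≥ 1`: if `m = 0` then `g = g0.map C` with `g0 ∈ ℂ[X]` of degree `n ≥ 2`; `g0` has a root `z` (`IsAlgClosed.exists_root`), so `X - C (C z) ∣ g`; `g` irreducible is then associated to it and has degree `1`: contradiction. -/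

namespace Pool.Agent.H4.TE

open Finset Polynomial Pool.Agent.H37.TE Pool.Agent.H98.TE Pool.Agent.H4.EX

variable {n m : ℕ}

/-- the part of degree `n` of the family, over `ℂ[t]` -/
noncomputable def topC (n m : ℕ) (F : ℕ → MvPolynomial (Fin 2) ℤ) : MvPolynomial (Fin 2) ℂ[X] :=
  ∑ j ∈ range (m + 1), MvPolynomial.C (X ^ j) *
    MvPolynomial.map (Int.castRingHom ℂ[X]) (MvPolynomial.homogeneousComponent n (F j))

theorem ad_topC (F : ℕ → MvPolynomial (Fin 2) ℤ) : topC n m F =
    hm n ((topf n (F3 m F)).map (mapRingHom (Int.castRingHom ℂ))) := by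
  unfold topC hm
  have h1 : ∀ i ∈ range (n + 1),
      (MvPolynomial.C (((topf n (F3 m F)).map (mapRingHom (Int.castRingHom ℂ))).coeff i) *
        MvPolynomial.X 0 ^ (n - i) * MvPolynomial.X 1 ^ i : MvPolynomial (Fin 2) ℂ[X]) =
      ∑ j ∈ range (m + 1), MvPolynomial.C (X ^ j) *
        MvPolynomial.map (Int.castRingHom ℂ[X]) (MvPolynomial.C
          ((F j).coeff (Finsupp.single 0 (n - i) + Finsupp.single 1 i)) *
          MvPolynomial.X 0 ^ (n - i) * MvPolynomial.X 1 ^ i) := by
    intro i hi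
    have hi' : i ≤ n := Nat.lt_succ_iff.1 (mem_range.1 hi)
    rw [coeff_map, tpf_coeff, if_pos hi', coeff_f3, map_sum, map_sum, sum_mul, sum_mul]
    refine sum_congr rfl fun j _ => ?_
    simp only [map_mul, map_pow, MvPolynomial.map_C, MvPolynomial.map_X, coe_mapRingHom,
      Polynomial.map_mul, Polynomial.map_pow, Polynomial.map_X, Polynomial.map_C, eq_intCast,
      map_intCast]
    ring
  rw [sum_congr rfl h1, sum_comm]
  refine sum_congr rfl fun j _ => ?_
  rw [top_cf, map_sum, mul_sum]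

theorem ad_topq (F : ℕ → MvPolynomial (Fin 2) ℤ) :
    MvPolynomial.map (Int.castRingHom ℚ) (MvPolynomial.homogeneousComponent n (F m)) =
      hm n (topq n m (F3 m F)) := by
  unfold hm
  rw [top_cf, map_sum]
  refine sum_congr rfl fun l hl => ?_
  have hl' : l ≤ n := Nat.lt_succ_iff.1 (mem_range.1 hl)
  rw [topq_coeff, if_pos hl', cf3, coeff_f3, finsetSum_coeff]
  have h1 : ∑ j ∈ range (m + 1), (C ((F j).coeff (Finsupp.single 0 (n - l) + Finsupp.single 1 l)) *
      X ^ j : ℤ[X]).coeff m = (F m).coeff (Finsupp.single 0 (n - l) + Finsupp.single 1 l) := by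
    rw [sum_eq_single m]
    · rw [coeff_C_mul, coeff_X_pow, if_pos rfl, mul_one]
    · intro j _ hj
      rw [coeff_C_mul, coeff_X_pow, if_neg (Ne.symm hj), mul_zero]
    · intro h
      exact absurd (mem_range.2 (Nat.lt_succ_self m)) h
  rw [h1]
  simp

/-- the hypotheses of Theorem E in the format of helper98 -/
theorem ad_hyp (F : ℕ → MvPolynomial (Fin 2) ℤ) (hn : 5 ≤ n)
    (hF : ∀ j ≤ m, (F j).totalDegree ≤ n) (h1 : Irreducible (topC n m F))
    (h2 : Squarefree (MvPolynomial.map (Int.castRingHom ℚ)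
      (MvPolynomial.homogeneousComponent n (F m)))) : HypE n m (F3 m F) ∧ 1 ≤ m := by
  obtain ⟨g, hg⟩ : ∃ g, g = (topf n (F3 m F)).map (mapRingHom (Int.castRingHom ℂ)) := ⟨_, rfl⟩
  have hgd : g.natDegree ≤ n := by
    rw [hg]
    refine natDegree_map_le.trans ?_
    rw [natDegree_le_iff_coeff_eq_zero]
    intro b hb
    rw [tpf_coeff, if_neg (by omega)]
  rw [ad_topC, ← hg] at h1
  obtain ⟨hirr, hdeg⟩ := form_irr (by omega) hgd h1
  have hgc : ∀ i, i ≤ n → g.coeff i =
      mapRingHom (Int.castRingHom ℂ) (((F3 m F).coeff i).coeff (n - i)) := by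
    intro i hi
    rw [hg, coeff_map, tpf_coeff, if_pos hi]
  rw [ad_topq] at h2
  have hn0 : g.coeff n ≠ 0 := by
    rw [← hdeg, coeff_natDegree]
    exact leadingCoeff_ne_zero.2 hirr.ne_zero
  refine ⟨⟨deg_f3 hF, ?_, ?_, form_sqf (topq_deg n m _) h2, ?_⟩, ?_⟩
  · intro h
    rw [hgc n le_rfl, Nat.sub_self, h, map_zero] at hn0
    exact hn0 rfl
  · rw [← hg]
    exact hirr
  · by_contra hlt
    rw [not_le] at hlt
    have hdvd : (MvPolynomial.X 0 * MvPolynomial.X 0 : MvPolynomial (Fin 2) ℚ) ∣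
        hm n (topq n m (F3 m F)) := by
      unfold hm
      refine Finset.dvd_sum fun i hi => ?_
      by_cases hi2 : i ≤ n - 2
      · have e : n - i = (n - i - 2) + 2 := by omega
        rw [e, pow_add, sq]
        exact Dvd.intro (MvPolynomial.C ((topq n m (F3 m F)).coeff i) *
          MvPolynomial.X 0 ^ (n - i - 2) * MvPolynomial.X 1 ^ i) (by ring)
      · rw [coeff_eq_zero_of_natDegree_lt (by omega), map_zero, zero_mul, zero_mul]
        exact dvd_zero _
    have hu := (h2 _ hdvd).map (MvPolynomial.eval (0 : Fin 2 → ℚ))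
    rw [MvPolynomial.eval_X, Pi.zero_apply] at hu
    exact not_isUnit_zero hu
  · by_contra hm0
    have hm1 : m = 0 := by omega
    subst hm1
    obtain ⟨g0, hg0⟩ : ∃ g0 : ℂ[X], g0 = ∑ i ∈ range (n + 1),
        C (((F 0).coeff (Finsupp.single 0 (n - i) + Finsupp.single 1 i) : ℤ) : ℂ) * X ^ i :=
      ⟨_, rfl⟩
    have hgg : g = g0.map C := by
      ext1 i
      rw [coeff_map, hg0, finsetSum_coeff]
      simp only [coeff_C_mul, coeff_X_pow, mul_ite, mul_one, mul_zero]
      rw [Finset.sum_ite_eq]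
      by_cases hi : i ≤ n
      · rw [hgc i hi, coeff_f3, if_pos (mem_range.2 (by omega))]
        simp
      · rw [if_neg (by rw [mem_range]; omega), map_zero]
        exact coeff_eq_zero_of_natDegree_lt (by omega)
    have hd0 : g0.natDegree = n := by
      rw [← hdeg, hgg, natDegree_map_eq_of_injective C_injective]
    obtain ⟨z, hz⟩ := IsAlgClosed.exists_root g0 (by
      intro h
      have h4 : g0.natDegree = 0 := natDegree_eq_zero_iff_degree_le_zero.2 h.le
      omega)
    obtain ⟨q, hq⟩ := dvd_iff_isRoot.2 hz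
    have hgq : g = (X - C z : ℂ[X]).map C * q.map C := by
      rw [hgg, hq, Polynomial.map_mul]
    have hq0 : q ≠ 0 := by
      rintro rfl
      rw [mul_zero] at hq
      rw [hq, natDegree_zero] at hd0
      omega
    have hd1 : g0.natDegree = 1 + q.natDegree := by
      conv_lhs => rw [hq]
      rw [natDegree_mul (X_sub_C_ne_zero z) hq0, natDegree_X_sub_C]
    rcases hirr.isUnit_or_isUnit hgq with h3 | h3
    · have := natDegree_eq_zero_of_isUnit h3
      rw [natDegree_map_eq_of_injective C_injective, natDegree_X_sub_C] at this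
      omega
    · have := natDegree_eq_zero_of_isUnit h3
      rw [natDegree_map_eq_of_injective C_injective] at this
      omega

end Pool.Agent.H4.TE
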