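import Pool.Agent.H98.TE.SWP

/-! # [H4 TE BRG] From polynomials in two variables to `ℤ[t][x][y]`

`F3 m F = ∑_(j ≤ m) C (C (X^j)) * aeval ![C X, X] (F j)`. `ev3_f3`: `ev3 t x y` is a ring hom on `ℤ[X][X][X]` (`eval₂RingHom`), `ev3 (C (C X)) = t`, `ev3 (C X) = x`, `ev3 X = y`; its composition with `aeval ![C X, X]` is `aeval ![x, y]` (`MvPolynomial.algHom_ext`, as `ℤ`-algebra homs, or `MvPolynomial.ringHom_ext`).
`coeff_f3`: `((F3 m F).coeff b).coeff a = ∑_(j ≤ m) C ((F j).coeff (single 0 a + single 1 b)) * X^j` (`MvPolynomial.induction_on'''`/`as_sum`: for a monomial `e`: `aeval ![C X, X] (monomial e r) = C (C r) * (C X)^(e 0) * X^(e 1)`, `(e 0, e 1) = (a, b)` iff `e = single 0 a + single 1 b`). `deg_f3`: if `n < a + b` the coefficient vanishes (`le_totalDegree`: `coeff_eq_zero_of_totalDegree_lt`), degree in `t` `≤ m`.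
`swap_f3`: exchange of the variables: both sides are images of ring homs agreeing on generators (`Bivariate.swap (C (C r)) = C (C r)`, `swap (C X) = X`, `swap X = C X`); `swF F j = rename (Equiv.swap 0 1) (F j)`. `top_cf`: compare coefficients (`MvPolynomial.coeff_homogeneousComponent`). -/

namespace Pool.Agent.H4.TE

open Finset Polynomial Pool.Agent.H37.TE Pool.Agent.H98.TE

/-- the family `∑ t^j F_j` as an element of `ℤ[t][x][y]` -/
noncomputable def F3 (m : ℕ) (F : ℕ → MvPolynomial (Fin 2) ℤ) : ℤ[X][X][X] :=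
  ∑ j ∈ range (m + 1), C (C (X ^ j)) * MvPolynomial.aeval ![(C X : ℤ[X][X][X]), X] (F j)

/-- exchange of the two variables -/
noncomputable def swF (F : ℕ → MvPolynomial (Fin 2) ℤ) (j : ℕ) : MvPolynomial (Fin 2) ℤ :=
  MvPolynomial.rename (Equiv.swap (0 : Fin 2) 1) (F j)

variable {n m : ℕ} {F : ℕ → MvPolynomial (Fin 2) ℤ}

/-- the value as a ring homomorphism -/
noncomputable def evH {S : Type*} [CommRing S] (t x y : S) : ℤ[X][X][X] →+* S :=
  eval₂RingHom (eval₂RingHom (eval₂RingHom (Int.castRingHom S) t) x) y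

theorem evH_apply {S : Type*} [CommRing S] (t x y : S) (G : ℤ[X][X][X]) :
    evH t x y G = ev3 t x y G := rfl

theorem evH_aeval {S : Type*} [CommRing S] (t x y : S) (P : MvPolynomial (Fin 2) ℤ) :
    evH t x y (MvPolynomial.aeval ![(C X : ℤ[X][X][X]), X] P) = MvPolynomial.aeval ![x, y] P := by
  have h : (evH t x y).comp
      ((MvPolynomial.aeval ![(C X : ℤ[X][X][X]), X] :
        MvPolynomial (Fin 2) ℤ →ₐ[ℤ] ℤ[X][X][X]) : MvPolynomial (Fin 2) ℤ →+* ℤ[X][X][X]) =
      ((MvPolynomial.aeval ![x, y] : MvPolynomial (Fin 2) ℤ →ₐ[ℤ] S) :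
        MvPolynomial (Fin 2) ℤ →+* S) := by
    apply MvPolynomial.ringHom_ext
    · intro r
      simp
    · intro i
      fin_cases i
      · simp [evH]
      · simp [evH]
  exact congrArg (fun g : MvPolynomial (Fin 2) ℤ →+* S => g P) h

theorem ev3_f3 {S : Type*} [CommRing S] (t x y : S) :
    ev3 t x y (F3 m F) = ∑ j ∈ range (m + 1), t ^ j * MvPolynomial.aeval ![x, y] (F j) := by
  rw [← evH_apply, F3, map_sum]
  refine sum_congr rfl fun j _ => ?_
  rw [map_mul, evH_aeval]
  congr 1
  show eval₂ (eval₂RingHom (eval₂RingHom (Int.castRingHom S) t) x) y (C (C (X ^ j))) = t ^ j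
  rw [eval₂_C, coe_eval₂RingHom, eval₂_C, coe_eval₂RingHom, eval₂_pow, eval₂_X]

theorem coeff_aev (P : MvPolynomial (Fin 2) ℤ) (a b : ℕ) :
    ((MvPolynomial.aeval ![(C X : ℤ[X][X][X]), X] P).coeff b).coeff a =
      C (P.coeff (Finsupp.single 0 a + Finsupp.single 1 b)) := by
  classical
  induction P using MvPolynomial.induction_on' with
  | monomial e r =>
    have h1 : MvPolynomial.aeval ![(C X : ℤ[X][X][X]), X] (MvPolynomial.monomial e r) =
        C (C (C r)) * (C (X ^ (e 0)) * X ^ (e 1)) := by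
      rw [MvPolynomial.aeval_monomial, Finsupp.prod_fintype _ _ (fun i => pow_zero _),
        Fin.prod_univ_two]
      simp
    rw [h1, coeff_C_mul, coeff_C_mul, coeff_C_mul, coeff_X_pow, MvPolynomial.coeff_monomial]
    by_cases hb : b = e 1
    · rw [if_pos hb, mul_one, coeff_X_pow]
      by_cases ha : a = e 0
      · rw [if_pos ha, if_pos, mul_one]
        ext i
        fin_cases i
        · simp [ha]
        · simp [hb]
      · rw [if_neg ha, if_neg, mul_zero, C_0]
        intro h
        apply ha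
        rw [h]
        simp
    · rw [if_neg hb, if_neg]
      · simp
      · intro h
        apply hb
        rw [h]
        simp
  | add p q hp hq =>
    rw [map_add, coeff_add, coeff_add, hp, hq, MvPolynomial.coeff_add, C_add]

theorem coeff_f3 (a b : ℕ) : ((F3 m F).coeff b).coeff a = ∑ j ∈ range (m + 1),
    C ((F j).coeff (Finsupp.single 0 a + Finsupp.single 1 b)) * X ^ j := by
  rw [F3, finsetSum_coeff, finsetSum_coeff]
  refine sum_congr rfl fun j _ => ?_
  rw [coeff_C_mul, coeff_C_mul, coeff_aev, mul_comm]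

theorem deg_f3 (hF : ∀ j ≤ m, (F j).totalDegree ≤ n) : DegF n m (F3 m F) := by
  refine ⟨fun a b hab => ?_, fun a b => ?_⟩
  · rw [coeff_f3]
    refine sum_eq_zero fun j hj => ?_
    rw [mem_range, Nat.lt_succ_iff] at hj
    have h : (F j).coeff (Finsupp.single 0 a + Finsupp.single 1 b) = 0 := by
      by_contra h
      have h1 := MvPolynomial.le_totalDegree (MvPolynomial.mem_support_iff.2 h)
      rw [Finsupp.sum_fintype _ _ (fun _ => rfl), Fin.sum_univ_two] at h1
      simp at h1
      have := hF j hj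
      omega
    rw [h, C_0, zero_mul]
  · rw [coeff_f3]
    refine natDegree_sum_le_of_forall_le _ _ fun j hj => ?_
    rw [mem_range, Nat.lt_succ_iff] at hj
    exact (natDegree_C_mul_X_pow_le _ _).trans hj

theorem swap_aev (P : MvPolynomial (Fin 2) ℤ) :
    Bivariate.swap (MvPolynomial.aeval ![(C X : ℤ[X][X][X]), X] P) =
      MvPolynomial.aeval ![(C X : ℤ[X][X][X]), X]
        (MvPolynomial.rename (Equiv.swap (0 : Fin 2) 1) P) := by
  rw [MvPolynomial.aeval_rename]
  have h : ((Bivariate.swap (R := ℤ[X])) : ℤ[X][X][X] →+* ℤ[X][X][X]).comp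
      ((MvPolynomial.aeval ![(C X : ℤ[X][X][X]), X] :
        MvPolynomial (Fin 2) ℤ →ₐ[ℤ] ℤ[X][X][X]) : MvPolynomial (Fin 2) ℤ →+* ℤ[X][X][X]) =
      ((MvPolynomial.aeval (![(C X : ℤ[X][X][X]), X] ∘ (Equiv.swap (0 : Fin 2) 1)) :
        MvPolynomial (Fin 2) ℤ →ₐ[ℤ] ℤ[X][X][X]) : MvPolynomial (Fin 2) ℤ →+* ℤ[X][X][X]) := by
    apply MvPolynomial.ringHom_ext
    · intro r
      simp
    · intro i
      fin_cases i
      · simp only [RingHom.coe_comp, Function.comp_apply]
        simpa using (Bivariate.swap_X (R := ℤ[X]))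
      · simp only [RingHom.coe_comp, Function.comp_apply]
        simpa using (Bivariate.swap_Y (R := ℤ[X]))
  exact congrArg (fun g : MvPolynomial (Fin 2) ℤ →+* ℤ[X][X][X] => g P) h

theorem swap_f3 : Bivariate.swap (F3 m F) = F3 m (swF F) := by
  rw [F3, F3, map_sum]
  refine sum_congr rfl fun j _ => ?_
  rw [map_mul, Bivariate.swap_C_C, swap_aev, swF]

theorem top_cf (P : MvPolynomial (Fin 2) ℤ) :
    MvPolynomial.homogeneousComponent n P = ∑ l ∈ range (n + 1),
      MvPolynomial.C (P.coeff (Finsupp.single 0 (n - l) + Finsupp.single 1 l)) *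
        MvPolynomial.X 0 ^ (n - l) * MvPolynomial.X 1 ^ l := by
  classical
  ext d
  rw [MvPolynomial.coeff_homogeneousComponent, MvPolynomial.coeff_sum]
  have h1 : ∀ l ∈ range (n + 1), MvPolynomial.coeff d
      (MvPolynomial.C (P.coeff (Finsupp.single 0 (n - l) + Finsupp.single 1 l)) *
        MvPolynomial.X 0 ^ (n - l) * MvPolynomial.X 1 ^ l : MvPolynomial (Fin 2) ℤ) =
      if Finsupp.single (0 : Fin 2) (n - l) + Finsupp.single 1 l = d then
        P.coeff (Finsupp.single 0 (n - l) + Finsupp.single 1 l) else 0 := by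
    intro l _
    rw [MvPolynomial.X_pow_eq_monomial, MvPolynomial.X_pow_eq_monomial,
      MvPolynomial.C_mul_monomial, MvPolynomial.monomial_mul, MvPolynomial.coeff_monomial,
      mul_one, mul_one]
  rw [sum_congr rfl h1]
  have hdeg : d.degree = d 0 + d 1 := by
    rw [Finsupp.degree_eq_sum, Fin.sum_univ_two]
  by_cases hd : d.degree = n
  · rw [if_pos hd]
    have h2 : Finsupp.single (0 : Fin 2) (n - d 1) + Finsupp.single 1 (d 1) = d := by
      ext i
      fin_cases i
      · simp; omega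
      · simp
    rw [sum_eq_single (d 1)]
    · rw [if_pos h2, h2]
    · intro l _ hl
      rw [if_neg]
      intro h
      apply hl
      rw [← h]
      simp
    · intro h
      rw [mem_range] at h
      omega
  · rw [if_neg hd]
    symm
    refine sum_eq_zero fun l hl => ?_
    rw [mem_range] at hl
    rw [if_neg]
    intro h
    apply hd
    rw [hdeg, ← h]
    simp
    omega

end Pool.Agent.H4.TE
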