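import Pool.Agent.H4.TE.IRF
import Pool.Agent.H97.FB.FIN

/-! # [H4 TE LRG] The large points: FAMILIES in density form

`f = topf n F`: `natDegree = n` (`h.lead`, `tpf_coeff`), `natDegree (f.coeff i) ≤ m` (`h.H.deg`), irreducible over `ℂ` (`h.irr`). The second part of `families n m n` (`5 ≤ n`, `1 ≤ m`, `3 ≤ n`): `C`, `K`: the set `B_N` of `a ∈ [1, N]` with `¬ GoodF n C f a` has at most `K N^(1 - 1/C)` elements (`Set.ncard`; a finite set, `Set.Finite.toFinset`, `Set.ncard_eq_toFinset_card`).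
`E = B_N ∪ [1, A1]`. For `a ∉ E`: `GoodF n C f a`: `(fa f a).map` is irreducible over `ℚ`, and `Eff n C (fa f a) a`. `(f.coeff n)(a) = ((F.coeff n).coeff 0)(a) ≠ 0` for `a > A1` (finitely many roots), so `natDegree (fa f a) = n`; `fm_irr`, `fm_deg`, `ing`. `Eff` with `H = max 2 (B1 a^m) ≤ a^(m+1)` (`fm_coeff`, `A1 ≥ B1 + 2`): an integer point (`vl_fm`) has
`max |x| |y| ≤ (a H)^C ≤ a^((m+2) C)`. `δ = 1/C` (`2 ≤ C`), `K' = |K| + A1` (`N^(1-δ) ≥ 1`). -/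

namespace Pool.Agent.H4.TE

open Finset Polynomial Pool.Agent.H37.TE Pool.Agent.H98.TE Pool.Agent.H34.AC Pool.Agent.H97.FB

theorem large {n m : ℕ} {F : ℤ[X][X][X]} (hn : 5 ≤ n) (hm : 1 ≤ m) (h : HypE n m F) :
    ∃ (C : ℕ) (K δ : ℝ), 0 < δ ∧ δ < 1 ∧ 0 ≤ K ∧ ∀ N : ℕ, 1 ≤ N → ∃ E : Finset ℕ,
      (E.card : ℝ) ≤ K * (N : ℝ) ^ (1 - δ) ∧ ∀ a : ℕ, 1 ≤ a → a ≤ N → a ∉ E → ∀ x y : ℤ,
        ev3 (a : ℤ) x y F = 0 → |x| ≤ (a : ℤ) ^ C ∧ |y| ≤ (a : ℤ) ^ C := by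
  classical
  obtain ⟨f, hf⟩ : ∃ f, f = topf n F := ⟨_, rfl⟩
  have hnat : f.natDegree = n := by
    refine natDegree_eq_of_le_of_coeff_ne_zero ?_ ?_
    · rw [natDegree_le_iff_coeff_eq_zero]
      intro b hb
      rw [hf, tpf_coeff, if_neg (by omega)]
    · rw [hf, tpf_coeff, if_pos le_rfl, Nat.sub_self]
      exact h.lead
  have hfm : ∀ i, (f.coeff i).natDegree ≤ m := by
    intro i
    rw [hf, tpf_coeff]
    split_ifs
    · exact h.H.deg _ _
    · simp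
  obtain ⟨C, hC2, hfam⟩ := families n m n hn hm (by omega)
  obtain ⟨-, K, hK⟩ := hfam f hnat hfm (by rw [hf]; exact h.irr)
  obtain ⟨B1, hB1⟩ := fm_coeff h.H
  have hZ : {a : ℕ | ((F.coeff n).coeff 0).eval (a : ℤ) = 0}.Finite := by
    have h1 := Polynomial.finite_setOfPred_isRoot h.lead
    exact h1.preimage (fun x _ y _ hxy => Nat.cast_injective hxy)
  obtain ⟨Z, hZ2⟩ : ∃ Z : Finset ℕ, ∀ a : ℕ, a ∈ Z ↔ ((F.coeff n).coeff 0).eval (a : ℤ) = 0 :=
    ⟨hZ.toFinset, fun a => by rw [Set.Finite.mem_toFinset]; rfl⟩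
  have hC0 : (2 : ℝ) ≤ C := by exact_mod_cast hC2
  refine ⟨(m + 2) * C, |K| + Z.card + (B1 + 2), 1 / (C : ℝ), by positivity, ?_, by positivity,
    fun N hN => ?_⟩
  · rw [div_lt_one (by positivity)]
    linarith
  have hfin : (Set.Icc 1 N ∩ {a | ¬ GoodF n C f a}).Finite := (Set.finite_Icc 1 N).inter_of_left _
  refine ⟨hfin.toFinset ∪ (Z ∪ Finset.Icc 1 (B1 + 2)), ?_, ?_⟩
  · have h1 : ((hfin.toFinset ∪ (Z ∪ Finset.Icc 1 (B1 + 2))).card : ℝ) ≤
        (hfin.toFinset.card : ℝ) + ((Z.card : ℝ) + (B1 + 2)) := by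
      have h2 := card_union_le hfin.toFinset (Z ∪ Finset.Icc 1 (B1 + 2))
      have h3 := card_union_le Z (Finset.Icc 1 (B1 + 2))
      rw [Nat.card_Icc] at h3
      have h4 : (hfin.toFinset ∪ (Z ∪ Finset.Icc 1 (B1 + 2))).card ≤
        hfin.toFinset.card + (Z.card + (B1 + 2)) := by omega
      exact_mod_cast h4
    have h2 : (hfin.toFinset.card : ℝ) ≤ K * (N : ℝ) ^ (1 - 1 / (C : ℝ)) := by
      rw [← Set.ncard_eq_toFinset_card _ hfin]
      exact hK N hN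
    have hN1 : (1 : ℝ) ≤ N := by exact_mod_cast hN
    have h3 : (1 : ℝ) ≤ (N : ℝ) ^ (1 - 1 / (C : ℝ)) := by
      apply Real.one_le_rpow hN1
      rw [sub_nonneg, div_le_one (by positivity)]
      linarith
    have h4 : K * (N : ℝ) ^ (1 - 1 / (C : ℝ)) ≤ |K| * (N : ℝ) ^ (1 - 1 / (C : ℝ)) :=
      mul_le_mul_of_nonneg_right (le_abs_self K) (by positivity)
    have h5 : (Z.card : ℝ) + (B1 + 2) ≤ ((Z.card : ℝ) + (B1 + 2)) * (N : ℝ) ^ (1 - 1 / (C : ℝ)) :=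
      le_mul_of_one_le_right (by positivity) h3
    calc _ ≤ _ := h1
      _ ≤ |K| * (N : ℝ) ^ (1 - 1 / (C : ℝ)) +
          ((Z.card : ℝ) + (B1 + 2)) * (N : ℝ) ^ (1 - 1 / (C : ℝ)) := by linarith
      _ = _ := by ring
  · intro a ha1 haN haE x y hxy
    rw [mem_union, mem_union, not_or, not_or, Set.Finite.mem_toFinset, mem_Icc] at haE
    obtain ⟨e1, e2, e3⟩ := haE
    have hgood : GoodF n C f a := by
      by_contra hg
      exact e1 ⟨⟨ha1, haN⟩, hg⟩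
    obtain ⟨g1, g2⟩ := hgood
    have hp : ((F.coeff n).coeff 0).eval (a : ℤ) ≠ 0 := fun h0 => e2 ((hZ2 a).2 h0)
    have haB : B1 + 2 < a := by omega
    rw [hf] at g1 g2
    have hd : (fa (topf n F) a).natDegree = n := by
      refine natDegree_eq_of_le_of_coeff_ne_zero ?_ ?_
      · rw [fa]
        refine natDegree_map_le.trans ?_
        rw [← hf, hnat]
      · rw [fa, coeff_map, tpf_coeff, if_pos le_rfl, Nat.sub_self]
        exact hp
    have h1 := g2 (Fm F a) (fm_irr h.H (by omega) hd g1) (fm_deg h.H a)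
      (ing h.H (by omega) hp) (max 2 (B1 * a ^ m)) (le_max_left _ _)
      (fun e => (hB1 a ha1 e).trans (by exact_mod_cast le_max_right _ _)) x y (by
        rw [vl_fm]
        exact hxy)
    have h2 : max 2 (B1 * a ^ m) ≤ a ^ (m + 1) := by
      have h3 : 1 ≤ a ^ m := Nat.one_le_pow _ _ ha1
      rw [pow_succ]
      refine max_le ?_ ?_
      · nlinarith
      · rw [mul_comm]
        exact Nat.mul_le_mul_left _ (by omega)
    have h3 : (a * max 2 (B1 * a ^ m)) ^ C ≤ a ^ ((m + 2) * C) := by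
      rw [pow_mul]
      apply Nat.pow_le_pow_left
      calc a * max 2 (B1 * a ^ m) ≤ a * a ^ (m + 1) := Nat.mul_le_mul_left _ h2
        _ = a ^ (m + 2) := by ring
    have h4 := h1.trans h3
    have h5 : x.natAbs ≤ a ^ ((m + 2) * C) := (le_max_left _ _).trans h4
    have h6 : y.natAbs ≤ a ^ ((m + 2) * C) := (le_max_right _ _).trans h4
    rw [Int.abs_eq_natAbs, Int.abs_eq_natAbs]
    constructor
    · exact_mod_cast h5
    · exact_mod_cast h6

end Pool.Agent.H4.TE
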