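import Pool.Agent.H98.TE.SWP

/-! # [H4 TE NEG] Negative values of the parameter

`ev3_ng`: two ring homs `ℤ[X][X][X] → S` agree (`Polynomial.ringHom_ext'` three times, see `ev3_sh` in `Pool/Agent/H37/TE/Win.lean`). `sol_ng`: a polynomial solution `r1, r2` of `ngF F` gives the solution `r1.comp (-X)`, `r2.comp (-X)` of `F`: `ev3` commutes with the ring hom `compRingHom (-X) : ℚ[X] →+* ℚ[X]` (`ev3_hom`),
`compRingHom (-X) (ev3 X r1 r2 (ngF F)) = ev3 (-X) r1' r2' (ngF F) = ev3 X r1' r2' F`; `(r.comp (-X)).eval a = r.eval (-a)`. `hyp_ng`: `((ngF F).coeff b).coeff a = ((F.coeff b).coeff a).comp (-X)`: degrees are preserved, `coeff j` is multiplied by `(-1)^j`, so `topq n m (ngF F) = C ((-1)^m) * topq n m F`;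
`topf n (ngF F) = (topf n F).map (compRingHom (-X))`; irreducibility over `ℂ` by the automorphism `t ↦ -t` of `ℂ[t]` (an involution, `Polynomial.mapEquiv`, `MulEquiv.irreducible_iff`, see `irr_shift` in `Win.lean`). -/

namespace Pool.Agent.H4.TE

open Finset Polynomial Pool.Agent.H37.TE Pool.Agent.H98.TE

/-- `t` replaced by `-t` -/
noncomputable def ngF (F : ℤ[X][X][X]) : ℤ[X][X][X] :=
  F.map (mapRingHom (compRingHom (-X)))

theorem ngF_coeff (F : ℤ[X][X][X]) (a b : ℕ) :
    ((ngF F).coeff b).coeff a = ((F.coeff b).coeff a).comp (-X) := by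
  unfold ngF
  rw [coeff_map, coe_mapRingHom, coeff_map, coe_compRingHom_apply]

theorem cf3_ng (F : ℤ[X][X][X]) (j a b : ℕ) :
    cf3 (ngF F) j a b = (-1) ^ j * cf3 F j a b := by
  unfold cf3
  rw [ngF_coeff]
  have h1 : (-X : ℤ[X]) = C (-1) * X := by simp
  rw [h1, comp_C_mul_X_coeff, mul_comm]

theorem ngF_ngF (F : ℤ[X][X][X]) : ngF (ngF F) = F := by
  ext1 b
  ext1 a
  rw [ngF_coeff, ngF_coeff, comp_neg_X_comp_neg_X]

theorem ev3_ng {S : Type*} [CommRing S] (t x y : S) (F : ℤ[X][X][X]) :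
    ev3 t x y (ngF F) = ev3 (-t) x y F := by
  have h1 : ∀ (t x y : S) (F : ℤ[X][X][X]), ev3 t x y F =
      eval₂RingHom (eval₂RingHom (eval₂RingHom (Int.castRingHom S) t) x) y F := fun _ _ _ _ => rfl
  have h2 : ∀ F : ℤ[X][X][X], ngF F = mapRingHom (mapRingHom (compRingHom (-X))) F :=
    fun _ => rfl
  rw [h1, h1, h2, ← RingHom.comp_apply]
  congr 1
  refine Polynomial.ringHom_ext' ?_ ?_
  · refine Polynomial.ringHom_ext' ?_ ?_
    · refine Polynomial.ringHom_ext' (RingHom.ext_int _ _) ?_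
      simp
    · simp
  · simp

theorem sol_ng {F : ℤ[X][X][X]} {a x y : ℤ} (h : Sol (ngF F) (-a) x y) : Sol F a x y := by
  obtain ⟨r1, r2, hr, e1, e2⟩ := h
  have h4 : ∀ r : ℚ[X], (r.comp (-X)).eval (a : ℚ) = r.eval (((-a : ℤ)) : ℚ) := by
    intro r
    rw [eval_comp]
    congr 1
    simp
  refine ⟨r1.comp (-X), r2.comp (-X), ?_, ?_, ?_⟩
  · have h5 := congrArg (compRingHom (-X : ℚ[X])) hr
    rw [ev3_hom, map_zero, ev3_ng] at h5
    have h6 : -(compRingHom (-X : ℚ[X]) (X : ℚ[X])) = X := by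
      rw [coe_compRingHom_apply, X_comp, neg_neg]
    rw [h6] at h5
    exact h5
  · rw [h4, e1]
  · rw [h4, e2]

theorem hyp_ng {n m : ℕ} {F : ℤ[X][X][X]} (h : HypE n m F) : HypE n m (ngF F) := by
  have hs : ∀ p : ℤ[X], p.comp (-X) = 0 ↔ p = 0 := by
    intro p
    constructor
    · intro h
      rw [← comp_neg_X_comp_neg_X p, h, zero_comp]
    · intro h
      rw [h, zero_comp]
  have htop : topq n m (ngF F) = C ((-1) ^ m) * topq n m F := by
    ext b
    rw [coeff_C_mul, topq_coeff, topq_coeff]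
    split_ifs
    · rw [cf3_ng]
      push_cast
      ring
    · ring
  have hu : ((-1 : ℚ) ^ m) ≠ 0 := pow_ne_zero _ (by norm_num)
  refine ⟨⟨?_, ?_⟩, ?_, ?_, ?_, ?_⟩
  · intro a b hab
    rw [ngF_coeff, h.H.tot a b hab, zero_comp]
  · intro a b
    rw [ngF_coeff]
    have h1 := h.H.deg a b
    have h2 : (((F.coeff b).coeff a).comp (-X)).natDegree = ((F.coeff b).coeff a).natDegree := by
      unfold natDegree
      rw [degree_comp_neg_X]
    omega
  · rw [ngF_coeff, Ne, hs]
    exact h.lead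
  · have h1 : (topf n (ngF F)).map (mapRingHom (Int.castRingHom ℂ)) =
        (mapEquiv (algEquivAevalNegX (R := ℂ)).toRingEquiv)
          ((topf n F).map (mapRingHom (Int.castRingHom ℂ))) := by
      rw [mapEquiv_apply]
      ext1 b
      rw [coeff_map, coeff_map, coeff_map, tpf_coeff, tpf_coeff]
      split_ifs with hb
      · rw [ngF_coeff]
        simp only [coe_mapRingHom]
        rw [map_comp]
        show _ = (algEquivAevalNegX (R := ℂ)) _
        simp [aeval_def, comp, eval₂_eq_eval_map]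
      · simp
    rw [h1]
    exact (MulEquiv.irreducible_iff _).2 h.irr
  · rw [htop]
    have h3 : IsUnit (C ((-1 : ℚ) ^ m)) := isUnit_C.2 (isUnit_iff_ne_zero.2 hu)
    exact (Associated.squarefree_iff (associated_unit_mul_left _ _ h3)).2 h.sq
  · rw [htop, natDegree_C_mul hu]
    exact h.dq

end Pool.Agent.H4.TE
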