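import Pool.Agent.H4.TE.DYA
import Pool.Agent.H4.TE.NEG
import Pool.Agent.H4.TE.LRG
import Pool.Agent.H98.TE.PP

/-! # [H4 TE ALL] All integer values of the parameter -/

namespace Pool.Agent.H4.TE

open Finset Polynomial Pool.Agent.H37.TE Pool.Agent.H98.TE

theorem pos_all {n m : ℕ} {F : ℤ[X][X][X]} (hn : 5 ≤ n) (hm : 1 ≤ m) (h : HypE n m F) :
    ∃ K δ : ℝ, 0 < δ ∧ δ < 1 ∧ 0 ≤ K ∧ ∀ N : ℕ, 1 ≤ N → ∃ E : Finset ℕ,
      (E.card : ℝ) ≤ K * (N : ℝ) ^ (1 - δ) ∧ ∀ a : ℕ, 1 ≤ a → a ≤ N → a ∉ E →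
        ∀ x y : ℤ, ev3 (a : ℤ) x y F = 0 → Sol F a x y := by
  classical
  obtain ⟨C, K1, δ1, hδ1, hδ1', hK1, H1⟩ := large hn hm h
  obtain ⟨C2, H2⟩ := poly_points (C + C) (by omega) h
  -- the exceptional values for the points of polynomial size
  obtain ⟨Bad, hBad⟩ : ∃ Bad : ℕ → Prop, ∀ a, Bad a ↔ ∃ x y : ℤ, |x| ≤ (a : ℤ) ^ C ∧
      |y| ≤ (a : ℤ) ^ C ∧ ev3 (a : ℤ) x y F = 0 ∧ ¬ Sol F a x y := ⟨_, fun _ => Iff.rfl⟩
  obtain ⟨K2, hK2, H3⟩ := dyadic_sum Bad (C := (C2 : ℝ) + 2) (e := 157 / 160) (by norm_num)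
    (by positivity) (by
      intro X hX S hS
      have hXR : (1 : ℝ) ≤ (X : ℝ) ^ ((157 : ℝ) / 160) :=
        Real.one_le_rpow (by exact_mod_cast hX) (by norm_num)
      rcases Nat.lt_or_ge X 2 with hX2 | hX2
      · have hX1 : X = 1 := by omega
        have h1 : S ⊆ Finset.Icc 1 2 := by
          intro a ha
          have := hS a ha
          rw [Finset.mem_Icc]
          omega
        have h2 : (S.card : ℝ) ≤ 2 := by exact_mod_cast card_le_card h1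
        nlinarith [Nat.cast_nonneg (α := ℝ) C2]
      · have h1 := H2 X hX (S.image fun a : ℕ => (a : ℤ)) (by
          intro b hb
          obtain ⟨a, ha, rfl⟩ := mem_image.1 hb
          obtain ⟨e1, e2, e3⟩ := hS a ha
          obtain ⟨x, y, f1, f2, f3, f4⟩ := (hBad a).1 e3
          have e4 : ((a : ℤ)) ^ C ≤ (X : ℤ) ^ (C + C) := by
            have e5 : a ≤ X * X := by nlinarith
            have e6 : a ^ C ≤ X ^ (C + C) := by
              calc a ^ C ≤ (X * X) ^ C := Nat.pow_le_pow_left e5 C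
                _ = X ^ (C + C) := by rw [mul_pow, pow_add]
            exact_mod_cast e6
          refine ⟨by exact_mod_cast e1, by exact_mod_cast e2, x, y, ?_, ?_, f3, f4⟩
          · push_cast
            exact f1.trans e4
          · push_cast
            exact f2.trans e4)
        rw [card_image_of_injective _ Nat.cast_injective] at h1
        nlinarith)
  refine ⟨K1 + K2, min δ1 (3 / 160), lt_min hδ1 (by norm_num),
    lt_of_le_of_lt (min_le_right _ _) (by norm_num), by positivity, fun N hN => ?_⟩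
  obtain ⟨E, hE, HE⟩ := H1 N hN
  have hN1 : (1 : ℝ) ≤ N := by exact_mod_cast hN
  have e1 : (N : ℝ) ^ (1 - δ1) ≤ (N : ℝ) ^ (1 - min δ1 (3 / 160)) :=
    Real.rpow_le_rpow_of_exponent_le hN1 (by linarith [min_le_left δ1 (3 / 160)])
  have e2 : (N : ℝ) ^ ((157 : ℝ) / 160) ≤ (N : ℝ) ^ (1 - min δ1 (3 / 160)) :=
    Real.rpow_le_rpow_of_exponent_le hN1 (by linarith [min_le_right δ1 (3 / 160)])
  refine ⟨E ∪ (Finset.Icc 1 N).filter Bad, ?_, ?_⟩
  · have e3 := H3 N hN ((Finset.Icc 1 N).filter Bad) (by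
      intro a ha
      rw [mem_filter, Finset.mem_Icc] at ha
      exact ⟨ha.1.1, ha.1.2, ha.2⟩)
    have e4 : ((E ∪ (Finset.Icc 1 N).filter Bad).card : ℝ) ≤
        E.card + ((Finset.Icc 1 N).filter Bad).card := by
      exact_mod_cast card_union_le _ _
    nlinarith
  · intro a ha ha2 haE x y hxy
    rw [mem_union, not_or, mem_filter, not_and] at haE
    obtain ⟨g1, g2⟩ := HE a ha ha2 haE.1 x y hxy
    by_contra hs
    exact haE.2 (Finset.mem_Icc.2 ⟨ha, ha2⟩) ((hBad a).2 ⟨x, y, g1, g2, hxy, hs⟩)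

theorem int_all {n m : ℕ} {F : ℤ[X][X][X]} (hn : 5 ≤ n) (hm : 1 ≤ m) (h : HypE n m F) :
    ∃ K δ : ℝ, 0 < δ ∧ δ < 1 ∧ 0 ≤ K ∧ ∀ N : ℕ, 1 ≤ N → ∃ E : Finset ℤ,
      (E.card : ℝ) ≤ K * (N : ℝ) ^ (1 - δ) ∧ ∀ a : ℤ, |a| ≤ N → a ∉ E →
        ∀ x y : ℤ, ev3 a x y F = 0 → Sol F a x y := by
  obtain ⟨K1, δ1, a1, a2, a3, H1⟩ := pos_all hn hm h
  obtain ⟨K2, δ2, b1, b2, b3, H2⟩ := pos_all hn hm (hyp_ng h)
  refine ⟨K1 + K2 + 1, min δ1 δ2, lt_min a1 b1, lt_of_le_of_lt (min_le_left _ _) a2,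
    by positivity, fun N hN => ?_⟩
  obtain ⟨E1, c1, c2⟩ := H1 N hN
  obtain ⟨E2, d1, d2⟩ := H2 N hN
  classical
  refine ⟨E1.image (fun a : ℕ => (a : ℤ)) ∪ E2.image (fun a : ℕ => -(a : ℤ)) ∪ {0}, ?_, ?_⟩
  · have hN1 : (1 : ℝ) ≤ N := by exact_mod_cast hN
    have e1 : (N : ℝ) ^ (1 - δ1) ≤ (N : ℝ) ^ (1 - min δ1 δ2) :=
      Real.rpow_le_rpow_of_exponent_le hN1 (by linarith [min_le_left δ1 δ2])
    have e2 : (N : ℝ) ^ (1 - δ2) ≤ (N : ℝ) ^ (1 - min δ1 δ2) :=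
      Real.rpow_le_rpow_of_exponent_le hN1 (by linarith [min_le_right δ1 δ2])
    have e3 : (1 : ℝ) ≤ (N : ℝ) ^ (1 - min δ1 δ2) :=
      Real.one_le_rpow hN1 (by linarith [min_le_left δ1 δ2])
    have e4 : (E1.image (fun a : ℕ => (a : ℤ)) ∪ E2.image (fun a : ℕ => -(a : ℤ)) ∪ {0}).card ≤
        E1.card + E2.card + 1 := by
      refine (card_union_le _ _).trans ?_
      refine Nat.add_le_add ((card_union_le _ _).trans ?_) (by simp)
      exact Nat.add_le_add card_image_le card_image_le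
    have e5 : ((E1.image (fun a : ℕ => (a : ℤ)) ∪ E2.image (fun a : ℕ => -(a : ℤ)) ∪
        {0}).card : ℝ) ≤ E1.card + E2.card + 1 := by exact_mod_cast e4
    nlinarith
  · intro a ha haE x y hb
    simp only [mem_union, mem_image, mem_singleton, not_or, not_exists, not_and] at haE
    obtain ⟨⟨f1, f2⟩, f3⟩ := haE
    rcases lt_trichotomy a 0 with h | h | h
    · obtain ⟨k, hk⟩ := Int.eq_ofNat_of_zero_le (by omega : 0 ≤ -a)
      have hk2 : a = -(k : ℤ) := by omega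
      have hkE : k ∉ E2 := fun hk3 => f2 k hk3 hk2.symm
      refine sol_ng ?_
      rw [hk]
      refine d2 k (by omega) ?_ hkE x y ?_
      · rw [abs_of_neg h] at ha
        omega
      · rw [ev3_ng, ← hk2]
        exact hb
    · exact absurd h f3
    · obtain ⟨k, hk⟩ := Int.eq_ofNat_of_zero_le h.le
      have hkE : k ∉ E1 := fun hk3 => f1 k hk3 hk.symm
      rw [hk] at hb ⊢
      refine c2 k (by omega) ?_ hkE x y hb
      rw [abs_of_pos h] at ha
      omega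

end Pool.Agent.H4.TE
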