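import Mathlib

/-! # [H4 TE DYA] Sum over the dyadic intervals

`S ⊆ [1, N]`, split by `k = Nat.log 2 a ≤ L = Nat.log 2 N`, `a ∈ [2^k, 2^(k+1)]`: `card S ≤ ∑_(k ≤ L) C (2^k)^e` (`Finset.card_eq_sum_card_fiberwise`). Geometric sum with `r = 2^e > 1`: `∑_(k ≤ L) r^k ≤ r^(L+1)/(r-1)` (`geom_sum_eq`), `r^L = (2^L)^e ≤ N^e`. `K = C r/(r-1)`. -/

namespace Pool.Agent.H4.TE

open Finset Polynomial

theorem dyadic_sum (Bad : ℕ → Prop) {C e : ℝ} (he : 0 < e) (hC : 0 ≤ C)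
    (h : ∀ X : ℕ, 1 ≤ X → ∀ S : Finset ℕ, (∀ a ∈ S, X ≤ a ∧ a ≤ 2 * X ∧ Bad a) →
      (S.card : ℝ) ≤ C * (X : ℝ) ^ e) :
    ∃ K : ℝ, 0 ≤ K ∧ ∀ N : ℕ, 1 ≤ N → ∀ S : Finset ℕ, (∀ a ∈ S, 1 ≤ a ∧ a ≤ N ∧ Bad a) →
      (S.card : ℝ) ≤ K * (N : ℝ) ^ e := by
  obtain ⟨r, hr⟩ : ∃ r : ℝ, r = (2 : ℝ) ^ e := ⟨_, rfl⟩
  have hr1 : 1 < r := by
    rw [hr]
    exact Real.one_lt_rpow (by norm_num) he
  have hK : 0 ≤ C * (r / (r - 1)) := by
    apply mul_nonneg hC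
    apply div_nonneg (by linarith) (by linarith)
  refine ⟨C * (r / (r - 1)), hK, fun N hN S hS => ?_⟩
  obtain ⟨L, hL⟩ : ∃ L, L = Nat.log 2 N := ⟨_, rfl⟩
  have hmaps : ∀ a ∈ S, Nat.log 2 a ∈ range (L + 1) := by
    intro a ha
    rw [mem_range, hL]
    exact Nat.lt_succ_of_le (Nat.log_mono_right (hS a ha).2.1)
  have h1 : (S.card : ℝ) = ∑ k ∈ range (L + 1), ((S.filter fun a => Nat.log 2 a = k).card : ℝ) := by
    have := card_eq_sum_card_fiberwise hmaps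
    rw [this]
    push_cast
    rfl
  have h2 : ∀ k ∈ range (L + 1), ((S.filter fun a => Nat.log 2 a = k).card : ℝ) ≤ C * r ^ k := by
    intro k _
    have h3 := h (2 ^ k) (Nat.one_le_two_pow) (S.filter fun a => Nat.log 2 a = k) (by
      intro a ha
      rw [mem_filter] at ha
      obtain ⟨ha1, ha2⟩ := ha
      obtain ⟨b1, b2, b3⟩ := hS a ha1
      refine ⟨?_, ?_, b3⟩
      · rw [← ha2]
        exact Nat.pow_log_le_self 2 (by omega)
      · have := Nat.lt_pow_succ_log_self (b := 2) (by norm_num) a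
        rw [ha2] at this
        rw [pow_succ] at this
        omega)
    refine h3.trans (le_of_eq ?_)
    rw [hr]
    push_cast
    rw [← Real.rpow_natCast, ← Real.rpow_mul (by norm_num), ← Real.rpow_natCast,
      ← Real.rpow_mul (by norm_num), mul_comm (k : ℝ) e]
  rw [h1]
  refine (sum_le_sum h2).trans ?_
  rw [← mul_sum, geom_sum_eq (ne_of_gt hr1), mul_assoc]
  refine mul_le_mul_of_nonneg_left ?_ hC
  have hrL : r ^ L ≤ (N : ℝ) ^ e := by
    have h4 : ((2 : ℝ)) ^ L ≤ N := by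
      rw [hL]
      exact_mod_cast Nat.pow_log_le_self 2 (by omega)
    calc r ^ L = ((2 : ℝ) ^ L) ^ e := by
          rw [hr, ← Real.rpow_natCast, ← Real.rpow_mul (by norm_num), ← Real.rpow_natCast,
            ← Real.rpow_mul (by norm_num), mul_comm]
      _ ≤ (N : ℝ) ^ e := Real.rpow_le_rpow (by positivity) h4 he.le
  have hr0 : 0 < r - 1 := by linarith
  calc (r ^ (L + 1) - 1) / (r - 1) ≤ r ^ (L + 1) / (r - 1) := by
        apply div_le_div_of_nonneg_right _ hr0.le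
        linarith
    _ = r / (r - 1) * r ^ L := by rw [pow_succ]; ring
    _ ≤ r / (r - 1) * (N : ℝ) ^ e := by
        apply mul_le_mul_of_nonneg_left hrL
        apply div_nonneg (by linarith) hr0.le

end Pool.Agent.H4.TE
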