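import Pool.Agent.H4.TE.ALL
import Pool.Agent.H4.TE.ADM

/-! # Theorem E (ExactFamilies): the main theorem -/

namespace Pool.Agent.H4.TE

open Finset Polynomial Pool.Agent.H37.TE Pool.Agent.H98.TE

variable {n m : ℕ}

/-- `aeval` does not depend on the choice of the `ℤ`-algebra structure -/
theorem aeval_z {S : Type*} [CommRing S] [Algebra ℤ S] (v : Fin 2 → S)
    (p : MvPolynomial (Fin 2) ℤ) :
    MvPolynomial.aeval v p = MvPolynomial.eval₂ (Int.castRingHom S) v p := by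
  rw [MvPolynomial.aeval_def]
  congr 1
  exact RingHom.ext_int _ _

theorem main (F : ℕ → MvPolynomial (Fin 2) ℤ) (hn : 5 ≤ n)
    (hF : ∀ j ≤ m, (F j).totalDegree ≤ n) (h1 : Irreducible (topC n m F))
    (h2 : Squarefree (MvPolynomial.map (Int.castRingHom ℚ)
      (MvPolynomial.homogeneousComponent n (F m)))) :
    ∃ K δ : ℝ, 0 < δ ∧ δ < 1 ∧ ∀ N : ℕ, 1 ≤ N → ∃ E : Finset ℤ,
      (E.card : ℝ) ≤ K * (N : ℝ) ^ (1 - δ) ∧ ∀ a : ℤ, |a| ≤ N → a ∉ E → ∀ x y : ℤ,
        ∑ j ∈ range (m + 1), a ^ j * MvPolynomial.eval ![x, y] (F j) = 0 →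
          (∃ r1 r2 : ℚ[X], ∑ j ∈ range (m + 1), X ^ j * MvPolynomial.aeval ![r1, r2] (F j) = 0 ∧
            r1.eval (a : ℚ) = x ∧ r2.eval (a : ℚ) = y) ∧
          ((∀ u v : ℚ, MvPolynomial.aeval ![u, v] (MvPolynomial.homogeneousComponent n (F m)) = 0 →
            u = 0 ∧ v = 0) → ∀ j ≤ m, MvPolynomial.eval ![x, y] (F j) = 0) := by
  obtain ⟨a1, a2⟩ := ad_hyp F hn hF h1 h2
  obtain ⟨K, δ, hδ, hδ1, -, H⟩ := int_all hn a2 a1
  refine ⟨K, δ, hδ, hδ1, fun N hN => ?_⟩
  obtain ⟨E, hE, HE⟩ := H N hN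
  refine ⟨E, hE, fun a ha haE x y hxy => ?_⟩
  have h3 : ev3 a x y (F3 m F) = 0 := by
    rw [ev3_f3]
    simpa [MvPolynomial.aeval_eq_eval] using hxy
  have h4 := HE a ha haE x y h3
  refine ⟨?_, fun h0 j hj => ?_⟩
  · obtain ⟨r1, r2, hr, k1, k2⟩ := h4
    refine ⟨r1, r2, ?_, k1, k2⟩
    rw [ev3_f3] at hr
    simp only [aeval_z] at hr ⊢
    exact hr
  · have h5 := sol_common (F3 m F) a1.H.tot a1.H.deg (fun ρ1 ρ2 hρ => h0 ρ1 ρ2 ?_) a x y h4
    · rw [ev3_f3] at h5
      simp only [aeval_z] at h5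
      have h8 : ∀ j, MvPolynomial.eval₂ (Int.castRingHom ℤ[X]) ![(C x : ℤ[X]), C y] (F j) =
          C (MvPolynomial.eval ![x, y] (F j)) := by
        intro j
        have e0 : (![(C x : ℤ[X]), C y] : Fin 2 → ℤ[X]) = C ∘ ![x, y] := by
          funext i
          fin_cases i <;> rfl
        rw [e0, MvPolynomial.eval, MvPolynomial.coe_eval₂Hom, MvPolynomial.hom_eval₂]
        congr 1
      have h7 := congrArg (fun p : ℤ[X] => p.coeff j) h5
      simp only [finsetSum_coeff, coeff_zero] at h7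
      rw [Finset.sum_eq_single j] at h7
      · rw [h8, mul_comm, coeff_C_mul, coeff_X_pow_self, mul_one] at h7
        exact h7
      · intro i _ hij
        rw [h8, mul_comm, coeff_C_mul, coeff_X_pow, if_neg (Ne.symm hij), mul_zero]
      · intro hj2
        exact absurd (mem_range.2 (Nat.lt_succ_of_le hj)) hj2
    · rw [top_cf, map_sum, ← hρ]
      refine sum_congr rfl fun l hl => ?_
      rw [coeff_f3, finsetSum_coeff, Finset.sum_eq_single m]
      · rw [coeff_C_mul, coeff_X_pow_self, mul_one, map_mul, map_mul, map_pow, map_pow,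
          MvPolynomial.aeval_C, MvPolynomial.aeval_X, MvPolynomial.aeval_X]
        simp
      · intro i _ hij
        rw [coeff_C_mul, coeff_X_pow, if_neg (Ne.symm hij), mul_zero]
      · intro hm2
        exact absurd (mem_range.2 (Nat.lt_succ_self m)) hm2

end Pool.Agent.H4.TE
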